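import Pool.Agent.R731.HS.Sphere2

/-!
# The structure field `ξ = -J N` in a `(κ,μ,ν)_i`-nullity distribution (MP_f74330_gt, Q1)
-/

set_option autoImplicit false

namespace Pool.Agent.Results.MP_f74330_gt.YesOneNoLarge

open Pool.Agent.R731.HS Matrix Complex
open scoped ContDiff Topology ComplexOrder Matrix.Norms.Elementwise

attribute [-instance] instTopologicalSpaceMatrix
attribute [-instance] Matrix.instUniformSpace

lemma UB_connected : IsConnected UB := by
  refine ⟨UB_nonempty, ?_⟩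
  have h : UB = Metric.ball (0 : EuclideanSpace ℝ (Fin 3)) 1 := by
    ext x
    rw [mem_ball_zero_iff, EuclideanSpace.norm_eq, Fin.sum_univ_three]
    rw [Real.sqrt_lt' one_pos]
    simp only [Real.norm_eq_abs, sq_abs, one_pow]
    show 0 < rho x ↔ _
    unfold rho
    constructor <;> intro h <;> linarith
  rw [h]
  exact (convex_ball _ _).isPreconnected

/-- There is a piece of real hypersurface of `G₂(ℂ^{m+2})` with `m = 1` (the case `ε = 1`), with a
unit normal `N` and a smooth frame of the quaternionic structure along it, for which `ξ = -J N`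
lies in the `(1,0,0)_1`-nullity distribution. -/
def ExistsForOne : Prop :=
  ∃ (U : Set (EuclideanSpace ℝ (Fin 3)))
    (φ N : EuclideanSpace ℝ (Fin 3) → Matrix (Fin 1) (Fin 2) ℂ)
    (q : Fin 3 → EuclideanSpace ℝ (Fin 3) → Matrix (Fin 2) (Fin 2) ℂ),
    IsConnected U ∧ HypSurf (met 1) (Om 1 1) U φ N ∧ IsFrame 1 U φ q ∧
    (∀ x ∈ U, ∃ z, fderiv ℝ φ x z = -(I • N x)) ∧
    ∀ x ∈ U, NullVec (Gam 1) (met 1) φ N (fun X => X * q 0 x) (-(I • N x)) 1 0 0 x

/-- For no real hypersurface, no point `x` of it, no unit element `q` of the quaternionic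
structure at this point and no reals `κ, μ, ν` does `ξ = -J N` lie in the nullity space at `x`. -/
def NoneFor (m : ℕ) (ε : ℝ) : Prop :=
  ∀ (U : Set (EuclideanSpace ℝ (Fin (4 * m - 1))))
    (φ N : EuclideanSpace ℝ (Fin (4 * m - 1)) → Matrix (Fin m) (Fin 2) ℂ),
    HypSurf (met ε) (Om ε m) U φ N → ∀ x ∈ U, ∀ q : Matrix (Fin 2) (Fin 2) ℂ,
      IsQuat ε (φ x) q → ∀ κ μ ν : ℝ,
        ¬ NullVec (Gam ε) (met ε) φ N (fun X => X * q) (-(I • N x)) κ μ ν x

/-- Q1 is answered yes by `m = 1` (a geodesic sphere of `G₂(ℂ³) = ℂP²`), and no for all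
`m ≥ 3` in both spaces. -/
theorem result :
    (∀ m : ℕ, ∀ ε : ℝ, ε = 1 ∨ ε = -1 → KaehlerModel m ε) ∧ Om 1 1 = Set.univ ∧
      ExistsForOne ∧ ∀ m : ℕ, 3 ≤ m → NoneFor m 1 ∧ NoneFor m (-1) := by
  have key : ∀ m : ℕ, 3 ≤ m → ∀ ε : ℝ, ε = 1 ∨ ε = -1 → NoneFor m ε := by
    intro m hm ε hε U φ N hyp x hx q _ κ μ ν h
    have e1 : -(I • N x) = -(N x * (I • (1 : Matrix (Fin 2) (Fin 2) ℂ))) := by
      rw [Matrix.mul_smul, Matrix.mul_one]
    rw [e1] at h
    refine main2 hm hε hyp hx (I • (1 : Matrix (Fin 2) (Fin 2) ℂ)) q ?_ ?_ κ μ ν h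
    · rw [Matrix.smul_mul, Matrix.one_mul, smul_smul, I_mul_I, neg_smul, one_smul]
    · rw [conjTranspose_smul, conjTranspose_one, Matrix.smul_mul, Matrix.one_mul, Matrix.mul_smul,
        Matrix.mul_one, Complex.star_def, conj_I, neg_smul, add_neg_cancel]
  exact ⟨fun m ε hε => kaehlerModel m hε, Set.eq_univ_of_forall mem_Om_one,
    ⟨UB, sph, sphN, frame3, UB_connected, sphere_hypSurf, frame3_isFrame,
      fun x hx => sphere_tangent_xi hx, fun x hx => sphere_null hx⟩,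
    fun m hm => ⟨key m hm 1 (Or.inl rfl), key m hm (-1) (Or.inr rfl)⟩⟩

end Pool.Agent.Results.MP_f74330_gt.YesOneNoLarge
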